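import Pool.Agent.helper37.P2.SpecD

/-!
# TUE: Gauss energy in tube coordinates
-/

set_option autoImplicit false

open scoped ContDiff Topology
open MeasureTheory Filter Set Metric MvPolynomial Pool.Agent.helper37.QA

namespace Pool.Agent.P2

/-- the tube coordinates -/
noncomputable def TUE_Phi (κ : ℝ) (c : ℂ) (γ : ℂ → ℂ) (q : ℂ × ℂ) : ℂ × ℂ := (c + κ * q.1, γ q.1 + κ * q.2)

theorem TUE_hasFD (κ : ℝ) (c : ℂ) (γ : ℂ → ℂ) (q : ℂ × ℂ) (hγ : DifferentiableAt ℂ γ q.1) :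
    HasFDerivAt (TUE_Phi κ c γ)
      (((κ : ℂ) • ContinuousLinearMap.fst ℂ ℂ ℂ).prod
        (deriv γ q.1 • ContinuousLinearMap.fst ℂ ℂ ℂ + (κ : ℂ) • ContinuousLinearMap.snd ℂ ℂ ℂ)) q := by
  have h1 : HasFDerivAt (fun q : ℂ × ℂ => c + (κ : ℂ) * q.1) ((κ : ℂ) • ContinuousLinearMap.fst ℂ ℂ ℂ) q := by
    have := (hasFDerivAt_fst (𝕜 := ℂ) (p := q)).const_mul (κ : ℂ)
    exact this.const_add c
  have h2 : HasFDerivAt (fun q : ℂ × ℂ => γ q.1) (deriv γ q.1 • ContinuousLinearMap.fst ℂ ℂ ℂ) q :=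
    hγ.hasDerivAt.comp_hasFDerivAt q hasFDerivAt_fst
  have h3 : HasFDerivAt (fun q : ℂ × ℂ => (κ : ℂ) * q.2) ((κ : ℂ) • ContinuousLinearMap.snd ℂ ℂ ℂ) q :=
    (hasFDerivAt_snd (𝕜 := ℂ) (p := q)).const_mul (κ : ℂ)
  exact h1.prodMk (h2.add h3)

theorem TUE_lin (L : ℂ × ℂ →L[ℂ] ℂ) (x y : ℂ) : L (x, y) = x * L (1, 0) + y * L (0, 1) := by
  have e : ((x, y) : ℂ × ℂ) = x • ((1, 0) : ℂ × ℂ) + y • ((0, 1) : ℂ × ℂ) := by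
    ext <;> simp
  rw [e, map_add, map_smul, map_smul, smul_eq_mul, smul_eq_mul]

theorem TUE_comp (κ : ℝ) (c : ℂ) (γ : ℂ → ℂ) (q v : ℂ × ℂ) (h : ℂ × ℂ → ℂ) (hγ : DifferentiableAt ℂ γ q.1)
    (hh : DifferentiableAt ℂ h (TUE_Phi κ c γ q)) :
    fderiv ℂ (fun q => h (TUE_Phi κ c γ q)) q v =
      fderiv ℂ h (TUE_Phi κ c γ q) (κ * v.1, deriv γ q.1 * v.1 + κ * v.2) := by
  have h1 : HasFDerivAt (fun q => h (TUE_Phi κ c γ q)) _ q := hh.hasFDerivAt.comp q (TUE_hasFD κ c γ q hγ)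
  rw [h1.fderiv]
  simp

theorem TUE_cv (κ : ℝ) (c : ℂ) (γ : ℂ → ℂ) (q : ℂ × ℂ) (P Q : ℂ × ℂ → ℂ) (hγ : DifferentiableAt ℂ γ q.1)
    (hP : DifferentiableAt ℂ P (TUE_Phi κ c γ q)) (hQ : DifferentiableAt ℂ Q (TUE_Phi κ c γ q)) :
    P2U.cv (fun q => P (TUE_Phi κ c γ q)) (fun q => Q (TUE_Phi κ c γ q)) q = κ * P2U.cv P Q (TUE_Phi κ c γ q) := by
  unfold P2U.cv P2U.dv
  rw [TUE_comp κ c γ q (0, 1) P hγ hP, TUE_comp κ c γ q (0, 1) Q hγ hQ]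
  rw [TUE_lin (fderiv ℂ P _), TUE_lin (fderiv ℂ Q _)]
  simp only []
  ring

theorem TUE_cx (κ : ℝ) (c : ℂ) (γ : ℂ → ℂ) (q : ℂ × ℂ) (P Q : ℂ × ℂ → ℂ) (hγ : DifferentiableAt ℂ γ q.1)
    (hP : DifferentiableAt ℂ P (TUE_Phi κ c γ q)) (hQ : DifferentiableAt ℂ Q (TUE_Phi κ c γ q)) :
    P2U.cx (fun q => P (TUE_Phi κ c γ q)) (fun q => Q (TUE_Phi κ c γ q)) q =
      κ * P2U.cx P Q (TUE_Phi κ c γ q) + deriv γ q.1 * P2U.cv P Q (TUE_Phi κ c γ q) := by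
  unfold P2U.cx P2U.cv P2U.dx P2U.dv
  rw [TUE_comp κ c γ q (1, 0) P hγ hP, TUE_comp κ c γ q (1, 0) Q hγ hQ]
  rw [TUE_lin (fderiv ℂ P _), TUE_lin (fderiv ℂ Q _)]
  simp only []
  ring

theorem TUE_diff (P Q : ℂ × ℂ → ℂ) (q : ℂ × ℂ) (hP : AnalyticAt ℂ P q) (hQ : AnalyticAt ℂ Q q) :
    DifferentiableAt ℂ (P2U.cx P Q) q ∧ DifferentiableAt ℂ (P2U.cv P Q) q := by
  have h1 : ∀ (F : ℂ × ℂ → ℂ) (v : ℂ × ℂ), AnalyticAt ℂ F q → DifferentiableAt ℂ (fun p => fderiv ℂ F p v) q :=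
    fun F v hF => hF.fderiv.differentiableAt.clm_apply (differentiableAt_const v)
  constructor
  · exact (hQ.differentiableAt.mul (h1 P (1, 0) hP)).sub (hP.differentiableAt.mul (h1 Q (1, 0) hQ))
  · exact (hQ.differentiableAt.mul (h1 P (0, 1) hP)).sub (hP.differentiableAt.mul (h1 Q (0, 1) hQ))

theorem TUE_nn (κ : ℝ) (c : ℂ) (γ : ℂ → ℂ) (p : ℂ × ℂ) (P Q : ℂ × ℂ → ℂ) (hγ : DifferentiableOn ℂ γ (ball 0 1))
    (hp : ‖p.1‖ < 1 / 2) (hP : AnalyticAt ℂ P (TUE_Phi κ c γ p)) (hQ : AnalyticAt ℂ Q (TUE_Phi κ c γ p)) :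
    P2U.nn (fun q => P (TUE_Phi κ c γ q)) (fun q => Q (TUE_Phi κ c γ q)) p =
      κ ^ 4 * P2U.nn P Q (TUE_Phi κ c γ p) -
        κ ^ 2 * deriv (deriv γ) p.1 * P2U.cv P Q (TUE_Phi κ c γ p) ^ 3 := by
  have hball : ∀ z : ℂ, ‖z‖ < 1 → DifferentiableAt ℂ γ z := fun z hz =>
    hγ.differentiableAt (isOpen_ball.mem_nhds (by simpa using hz))
  have hp1 : ‖p.1‖ < 1 := by linarith
  have hγp := hball p.1 hp1
  have hγ2 : DifferentiableAt ℂ (deriv γ) p.1 := by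
    have : DifferentiableOn ℂ (deriv γ) (ball 0 1) := hγ.deriv isOpen_ball
    exact this.differentiableAt (isOpen_ball.mem_nhds (by simpa using hp1))
  have hΦc : ContinuousAt (TUE_Phi κ c γ) p := (TUE_hasFD κ c γ p hγp).continuousAt
  have hev1 : ∀ᶠ q : ℂ × ℂ in 𝓝 p, ‖q.1‖ < 1 :=
    (continuous_fst.norm.continuousAt (x := p)).eventually (eventually_lt_nhds hp1)
  have hev2 : ∀ᶠ q : ℂ × ℂ in 𝓝 p, AnalyticAt ℂ P (TUE_Phi κ c γ q) := hΦc.eventually hP.eventually_analyticAt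
  have hev3 : ∀ᶠ q : ℂ × ℂ in 𝓝 p, AnalyticAt ℂ Q (TUE_Phi κ c γ q) := hΦc.eventually hQ.eventually_analyticAt
  have ecv : P2U.cv (fun q => P (TUE_Phi κ c γ q)) (fun q => Q (TUE_Phi κ c γ q)) =ᶠ[𝓝 p]
      fun q => κ * P2U.cv P Q (TUE_Phi κ c γ q) := by
    filter_upwards [hev1, hev2, hev3] with q h1 h2 h3
    exact TUE_cv κ c γ q P Q (hball _ h1) h2.differentiableAt h3.differentiableAt
  have ecx : P2U.cx (fun q => P (TUE_Phi κ c γ q)) (fun q => Q (TUE_Phi κ c γ q)) =ᶠ[𝓝 p]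
      fun q => κ * P2U.cx P Q (TUE_Phi κ c γ q) + deriv γ q.1 * P2U.cv P Q (TUE_Phi κ c γ q) := by
    filter_upwards [hev1, hev2, hev3] with q h1 h2 h3
    exact TUE_cx κ c γ q P Q (hball _ h1) h2.differentiableAt h3.differentiableAt
  obtain ⟨dcx, dcv⟩ := TUE_diff P Q _ hP hQ
  have hΦd : DifferentiableAt ℂ (TUE_Phi κ c γ) p := (TUE_hasFD κ c γ p hγp).differentiableAt
  have dcx' : DifferentiableAt ℂ (fun q => P2U.cx P Q (TUE_Phi κ c γ q)) p := dcx.comp p hΦd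
  have dcv' : DifferentiableAt ℂ (fun q => P2U.cv P Q (TUE_Phi κ c γ q)) p := dcv.comp p hΦd
  have dγ' : HasFDerivAt (fun q : ℂ × ℂ => deriv γ q.1) (deriv (deriv γ) p.1 • ContinuousLinearMap.fst ℂ ℂ ℂ) p :=
    hγ2.hasDerivAt.comp_hasFDerivAt p hasFDerivAt_fst
  have evcv := ecv.self_of_nhds
  have evcx := ecx.self_of_nhds
  set q0 := TUE_Phi κ c γ p with hq0
  -- the vector
  have hef : ∀ h : ℂ × ℂ → ℂ, DifferentiableAt ℂ h q0 →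
      fderiv ℂ (fun q => h (TUE_Phi κ c γ q)) p
        (P2U.ef (fun q => P (TUE_Phi κ c γ q)) (fun q => Q (TUE_Phi κ c γ q)) p) =
        κ ^ 2 * fderiv ℂ h q0 (P2U.ef P Q q0) := by
    intro h hh
    rw [TUE_comp κ c γ p _ h hγp hh]
    unfold P2U.ef
    simp only []
    rw [evcv, evcx, TUE_lin (fderiv ℂ h _), TUE_lin (fderiv ℂ h q0) (P2U.cv P Q q0)]
    ring
  have hfcv : fderiv ℂ (P2U.cv (fun q => P (TUE_Phi κ c γ q)) (fun q => Q (TUE_Phi κ c γ q))) p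
      (P2U.ef (fun q => P (TUE_Phi κ c γ q)) (fun q => Q (TUE_Phi κ c γ q)) p) =
      κ ^ 3 * fderiv ℂ (P2U.cv P Q) q0 (P2U.ef P Q q0) := by
    rw [ecv.fderiv_eq, (dcv'.hasFDerivAt.const_mul (κ : ℂ)).fderiv]
    simp only [_root_.smul_apply, hef _ dcv, smul_eq_mul]
    ring
  have hfcx : fderiv ℂ (P2U.cx (fun q => P (TUE_Phi κ c γ q)) (fun q => Q (TUE_Phi κ c γ q))) p
      (P2U.ef (fun q => P (TUE_Phi κ c γ q)) (fun q => Q (TUE_Phi κ c γ q)) p) =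
      κ ^ 3 * fderiv ℂ (P2U.cx P Q) q0 (P2U.ef P Q q0) +
        deriv γ p.1 * κ ^ 2 * fderiv ℂ (P2U.cv P Q) q0 (P2U.ef P Q q0) +
        κ * deriv (deriv γ) p.1 * P2U.cv P Q q0 ^ 2 := by
    have hsum : HasFDerivAt (fun q => κ * P2U.cx P Q (TUE_Phi κ c γ q) + deriv γ q.1 * P2U.cv P Q (TUE_Phi κ c γ q)) _ p :=
      (dcx'.hasFDerivAt.const_mul (κ : ℂ)).fun_add (dγ'.fun_mul dcv'.hasFDerivAt)
    rw [ecx.fderiv_eq, hsum.fderiv]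
    simp only [_root_.add_apply, _root_.smul_apply, hef _ dcx, hef _ dcv, ContinuousLinearMap.coe_fst', smul_eq_mul]
    have : (P2U.ef (fun q => P (TUE_Phi κ c γ q)) (fun q => Q (TUE_Phi κ c γ q)) p).1 = κ * P2U.cv P Q q0 := by
      unfold P2U.ef
      exact evcv
    rw [this]
    ring
  unfold P2U.nn
  rw [hfcv, hfcx, evcv, evcx]
  ring

theorem TUE_A (κ a b a' b' G1 : ℝ) (hκ : 0 < κ) (ha0 : 0 ≤ a)
    (hb : b' = κ * b) (ha : κ * a ≤ a' + G1 * b) :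
    a ^ 2 + b ^ 2 ≤ (2 / κ ^ 2 + (1 / κ ^ 2 + 2 * G1 ^ 2 / κ ^ 4)) * (a' ^ 2 + b' ^ 2) := by
  have hκ2 : 0 < κ ^ 2 := by positivity
  have h2 : (κ * a) ^ 2 ≤ (a' + G1 * b) ^ 2 := pow_le_pow_left₀ (by positivity) ha 2
  have h1 : κ ^ 2 * a ^ 2 ≤ 2 * a' ^ 2 + 2 * G1 ^ 2 * b ^ 2 := by
    have h := sq_nonneg (a' - G1 * b)
    have e1 : (κ * a) ^ 2 = κ ^ 2 * a ^ 2 := by ring
    have e2 : (a' + G1 * b) ^ 2 + (a' - G1 * b) ^ 2 = 2 * a' ^ 2 + 2 * G1 ^ 2 * b ^ 2 := by ring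
    linarith
  have h3 : a ^ 2 ≤ (2 * a' ^ 2 + 2 * G1 ^ 2 * b ^ 2) / κ ^ 2 := by
    rw [le_div_iff₀ hκ2]
    linarith
  have h4 : (2 * a' ^ 2 + 2 * G1 ^ 2 * b ^ 2) / κ ^ 2 = 2 / κ ^ 2 * a' ^ 2 + 2 * G1 ^ 2 / κ ^ 4 * b' ^ 2 := by
    rw [hb]; field_simp
  have h5 : b ^ 2 = 1 / κ ^ 2 * b' ^ 2 := by
    rw [hb]; field_simp
  have h6 : 0 ≤ (1 / κ ^ 2 + 2 * G1 ^ 2 / κ ^ 4) * a' ^ 2 := by positivity
  have h7 : 0 ≤ 2 / κ ^ 2 * b' ^ 2 := by positivity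
  have e : (2 / κ ^ 2 + (1 / κ ^ 2 + 2 * G1 ^ 2 / κ ^ 4)) * (a' ^ 2 + b' ^ 2) =
      (2 / κ ^ 2 * a' ^ 2 + 2 * G1 ^ 2 / κ ^ 4 * b' ^ 2 + 1 / κ ^ 2 * b' ^ 2) +
        ((1 / κ ^ 2 + 2 * G1 ^ 2 / κ ^ 4) * a' ^ 2 + 2 / κ ^ 2 * b' ^ 2) := by ring
  rw [e]
  rw [h4] at h3
  linarith

theorem TUE_N (κ b n n' g2 G2 A : ℝ) (hg : g2 ≤ G2) (_hg0 : 0 ≤ g2) (hb0 : 0 ≤ b) (hn0' : 0 ≤ n')
    (hbA : b ^ 2 ≤ A) (hn : n' ≤ κ ^ 4 * n + κ ^ 2 * g2 * b ^ 3) :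
    n' ^ 2 ≤ 2 * κ ^ 8 * n ^ 2 + 2 * κ ^ 4 * G2 ^ 2 * (A ^ 2 * A) := by
  have h1 : n' ≤ κ ^ 4 * n + κ ^ 2 * G2 * b ^ 3 := by
    refine hn.trans ?_
    have : κ ^ 2 * g2 * b ^ 3 ≤ κ ^ 2 * G2 * b ^ 3 := by
      apply mul_le_mul_of_nonneg_right _ (by positivity)
      exact mul_le_mul_of_nonneg_left hg (by positivity)
    linarith
  have h2 : n' ^ 2 ≤ (κ ^ 4 * n + κ ^ 2 * G2 * b ^ 3) ^ 2 := pow_le_pow_left₀ hn0' h1 2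
  have h3 : (κ ^ 4 * n + κ ^ 2 * G2 * b ^ 3) ^ 2 + (κ ^ 4 * n - κ ^ 2 * G2 * b ^ 3) ^ 2 =
      2 * κ ^ 8 * n ^ 2 + 2 * κ ^ 4 * G2 ^ 2 * b ^ 6 := by ring
  have h4 := sq_nonneg (κ ^ 4 * n - κ ^ 2 * G2 * b ^ 3)
  have hb6 : b ^ 6 ≤ A ^ 2 * A := by
    calc b ^ 6 = (b ^ 2) ^ 3 := by ring
      _ ≤ A ^ 3 := pow_le_pow_left₀ (by positivity) hbA 3
      _ = A ^ 2 * A := by ring
  have h5 : 2 * κ ^ 4 * G2 ^ 2 * b ^ 6 ≤ 2 * κ ^ 4 * G2 ^ 2 * (A ^ 2 * A) :=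
    mul_le_mul_of_nonneg_left hb6 (by positivity)
  linarith

theorem TUE_fin (κ n n' G2 A A' C1 : ℝ) (hA : 0 < A) (hA' : 0 < A') (hAA : A ^ 2 ≤ C1 ^ 2 * A' ^ 2)
    (hn : n' ^ 2 ≤ 2 * κ ^ 8 * n ^ 2 + 2 * κ ^ 4 * G2 ^ 2 * (A ^ 2 * A)) :
    n' ^ 2 / A' ^ 2 ≤ (C1 ^ 2 * (2 * κ ^ 8 + 2 * κ ^ 4 * G2 ^ 2) + 1) * (n ^ 2 / A ^ 2 + A) := by
  have hA2pos : 0 < A ^ 2 := by positivity
  have hA'2pos : 0 < A' ^ 2 := by positivity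
  calc n' ^ 2 / A' ^ 2 ≤ C1 ^ 2 * (n' ^ 2 / A ^ 2) := by
        rw [div_le_iff₀ hA'2pos]
        have e : C1 ^ 2 * (n' ^ 2 / A ^ 2) * A' ^ 2 = n' ^ 2 * (C1 ^ 2 * A' ^ 2 / A ^ 2) := by ring
        rw [e]
        have h1 : 1 ≤ C1 ^ 2 * A' ^ 2 / A ^ 2 := by
          rw [le_div_iff₀ hA2pos, one_mul]; exact hAA
        have h2 := mul_le_mul_of_nonneg_left h1 (sq_nonneg n')
        linarith
    _ ≤ C1 ^ 2 * ((2 * κ ^ 8 * n ^ 2 + 2 * κ ^ 4 * G2 ^ 2 * (A ^ 2 * A)) / A ^ 2) := by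
        refine mul_le_mul_of_nonneg_left ?_ (by positivity)
        exact div_le_div_of_nonneg_right hn hA2pos.le
    _ = C1 ^ 2 * (2 * κ ^ 8 * (n ^ 2 / A ^ 2) + 2 * κ ^ 4 * G2 ^ 2 * A) := by
        field_simp
    _ ≤ (C1 ^ 2 * (2 * κ ^ 8 + 2 * κ ^ 4 * G2 ^ 2) + 1) * (n ^ 2 / A ^ 2 + A) := by
        have e1 : 0 ≤ n ^ 2 / A ^ 2 := by positivity
        have e2 : 0 ≤ C1 ^ 2 * (2 * κ ^ 8) * A := by positivity
        have e3 : 0 ≤ C1 ^ 2 * (2 * κ ^ 4 * G2 ^ 2) * (n ^ 2 / A ^ 2) := by positivity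
        have e4 : (C1 ^ 2 * (2 * κ ^ 8 + 2 * κ ^ 4 * G2 ^ 2) + 1) * (n ^ 2 / A ^ 2 + A) =
          C1 ^ 2 * (2 * κ ^ 8 * (n ^ 2 / A ^ 2) + 2 * κ ^ 4 * G2 ^ 2 * A) + C1 ^ 2 * (2 * κ ^ 8) * A +
            C1 ^ 2 * (2 * κ ^ 4 * G2 ^ 2) * (n ^ 2 / A ^ 2) + n ^ 2 / A ^ 2 + A := by ring
        rw [e4]
        linarith

theorem TUE_real (κ a b a' b' n n' : ℝ) (G1 G2 g2 : ℝ) (hκ : 0 < κ) (hg : g2 ≤ G2) (hg0 : 0 ≤ g2) (ha0 : 0 ≤ a) (hb0 : 0 ≤ b)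
    (hn0' : 0 ≤ n')
    (hb : b' = κ * b) (ha : κ * a ≤ a' + G1 * b) (hup : a = 0 → b = 0 → a' = 0)
    (hn : n' ≤ κ ^ 4 * n + κ ^ 2 * g2 * b ^ 3) :
    n' ^ 2 / (a' ^ 2 + b' ^ 2) ^ 2 ≤
      ((2 / κ ^ 2 + (1 / κ ^ 2 + 2 * G1 ^ 2 / κ ^ 4)) ^ 2 * (2 * κ ^ 8 + 2 * κ ^ 4 * G2 ^ 2) + 1) *
        (n ^ 2 / (a ^ 2 + b ^ 2) ^ 2 + (a ^ 2 + b ^ 2)) := by
  rcases eq_or_lt_of_le (show 0 ≤ a' ^ 2 + b' ^ 2 by positivity) with h0 | hpos'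
  · rw [← h0]
    have : n' ^ 2 / (0 : ℝ) ^ 2 = 0 := by simp
    rw [this]
    positivity
  have hA := TUE_A κ a b a' b' G1 hκ ha0 hb ha
  have hApos : 0 < a ^ 2 + b ^ 2 := by
    rcases eq_or_lt_of_le (show 0 ≤ a ^ 2 + b ^ 2 by positivity) with h0 | h
    · exfalso
      have ha2 : a = 0 := by
        have := sq_nonneg a
        have := sq_nonneg b
        exact pow_eq_zero_iff (two_ne_zero) |>.mp (by linarith)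
      have hb2 : b = 0 := by
        have := sq_nonneg a
        have := sq_nonneg b
        exact pow_eq_zero_iff (two_ne_zero) |>.mp (by linarith)
      have h1 := hup ha2 hb2
      rw [h1, hb, hb2] at hpos'
      simp at hpos'
    · exact h
  have hbA : b ^ 2 ≤ a ^ 2 + b ^ 2 := by
    have := sq_nonneg a
    linarith
  refine TUE_fin κ n n' G2 (a ^ 2 + b ^ 2) (a' ^ 2 + b' ^ 2) _ hApos hpos' ?_ (TUE_N κ b n n' g2 G2 _ hg hg0 hb0 hn0' hbA hn)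
  calc (a ^ 2 + b ^ 2) ^ 2 ≤ ((2 / κ ^ 2 + (1 / κ ^ 2 + 2 * G1 ^ 2 / κ ^ 4)) * (a' ^ 2 + b' ^ 2)) ^ 2 :=
        pow_le_pow_left₀ hApos.le hA 2
    _ = (2 / κ ^ 2 + (1 / κ ^ 2 + 2 * G1 ^ 2 / κ ^ 4)) ^ 2 * (a' ^ 2 + b' ^ 2) ^ 2 := by ring

theorem TUE : TUE_stmt := by
  intro κ R hκ hR
  refine ⟨(2 / κ ^ 2 + (1 / κ ^ 2 + 2 * (4 * R) ^ 2 / κ ^ 4)) ^ 2 * (2 * κ ^ 8 + 2 * κ ^ 4 * (32 * R) ^ 2) + 1, by positivity, ?_⟩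
  intro P Q γ c p hγ hbd hp hP hQ
  have hP' : AnalyticAt ℂ P (TUE_Phi κ c γ p) := hP
  have hQ' : AnalyticAt ℂ Q (TUE_Phi κ c γ p) := hQ
  have hball : ∀ z : ℂ, ‖z‖ < 1 → DifferentiableAt ℂ γ z := fun z hz =>
    hγ.differentiableAt (isOpen_ball.mem_nhds (by simpa using hz))
  have hd1 : ∀ z : ℂ, ‖z‖ < 3 / 4 → ‖deriv γ z‖ ≤ 4 * R := by
    intro z hz
    have hsub : closedBall z (1 / 4) ⊆ ball (0 : ℂ) 1 := by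
      intro w hw
      rw [mem_closedBall, dist_eq_norm] at hw
      rw [mem_ball_zero_iff]
      calc ‖w‖ = ‖(w - z) + z‖ := by rw [sub_add_cancel]
        _ ≤ ‖w - z‖ + ‖z‖ := norm_add_le _ _
        _ < 1 := by linarith
    have h1 := Complex.norm_deriv_le_of_forall_mem_sphere_norm_le (c := z) (R := 1 / 4) (C := R) (f := γ) (by norm_num)
      ((hγ.mono (by rw [closure_ball z (by norm_num)]; exact hsub)).diffContOnCl)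
      (fun w hw => hbd w (hsub (sphere_subset_closedBall hw)))
    linarith
  have hd2 : ‖deriv (deriv γ) p.1‖ ≤ 32 * R := by
    have hdγ : DifferentiableOn ℂ (deriv γ) (ball 0 1) := hγ.deriv isOpen_ball
    have hsub : closedBall p.1 (1 / 8) ⊆ ball (0 : ℂ) (3 / 4) := by
      intro w hw
      rw [mem_closedBall, dist_eq_norm] at hw
      rw [mem_ball_zero_iff]
      calc ‖w‖ = ‖(w - p.1) + p.1‖ := by rw [sub_add_cancel]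
        _ ≤ ‖w - p.1‖ + ‖p.1‖ := norm_add_le _ _
        _ < 3 / 4 := by linarith
    have h1 := Complex.norm_deriv_le_of_forall_mem_sphere_norm_le (c := p.1) (R := 1 / 8) (C := 4 * R) (f := deriv γ) (by norm_num)
      ((hdγ.mono (by
        rw [closure_ball p.1 (by norm_num)]
        exact hsub.trans (ball_subset_ball (by norm_num)))).diffContOnCl)
      (fun w hw => hd1 w (by
        have := hsub (sphere_subset_closedBall hw)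
        rwa [mem_ball_zero_iff] at this))
    linarith
  have hd1p : ‖deriv γ p.1‖ ≤ 4 * R := hd1 p.1 (by linarith)
  have hγp := hball p.1 (by linarith)
  have enn := TUE_nn κ c γ p P Q hγ hp hP' hQ'
  have ecv := TUE_cv κ c γ p P Q hγp hP'.differentiableAt hQ'.differentiableAt
  have ecx := TUE_cx κ c γ p P Q hγp hP'.differentiableAt hQ'.differentiableAt
  have hκn : ‖(κ : ℂ)‖ = κ := by rw [Complex.norm_real, Real.norm_of_nonneg hκ.le]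
  have main := TUE_real κ ‖P2U.cx P Q (TUE_Phi κ c γ p)‖ ‖P2U.cv P Q (TUE_Phi κ c γ p)‖
    ‖P2U.cx (fun q => P (TUE_Phi κ c γ q)) (fun q => Q (TUE_Phi κ c γ q)) p‖
    ‖P2U.cv (fun q => P (TUE_Phi κ c γ q)) (fun q => Q (TUE_Phi κ c γ q)) p‖
    ‖P2U.nn P Q (TUE_Phi κ c γ p)‖ ‖P2U.nn (fun q => P (TUE_Phi κ c γ q)) (fun q => Q (TUE_Phi κ c γ q)) p‖
    (4 * R) (32 * R) ‖deriv (deriv γ) p.1‖ hκ hd2 (norm_nonneg _) (norm_nonneg _) (norm_nonneg _) (norm_nonneg _)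
    ?_ ?_ ?_ ?_
  · exact main
  · rw [ecv, norm_mul, hκn]
  · rw [ecx]
    have e1 : (κ : ℂ) * P2U.cx P Q (TUE_Phi κ c γ p) =
        (κ * P2U.cx P Q (TUE_Phi κ c γ p) + deriv γ p.1 * P2U.cv P Q (TUE_Phi κ c γ p)) -
          deriv γ p.1 * P2U.cv P Q (TUE_Phi κ c γ p) := by ring
    have e2 : κ * ‖P2U.cx P Q (TUE_Phi κ c γ p)‖ = ‖(κ : ℂ) * P2U.cx P Q (TUE_Phi κ c γ p)‖ := by
      rw [norm_mul, hκn]
    rw [e2, e1]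
    refine (norm_sub_le _ _).trans ?_
    rw [add_sub_cancel_right] at *
    have e3 : ‖deriv γ p.1 * P2U.cv P Q (TUE_Phi κ c γ p)‖ ≤ 4 * R * ‖P2U.cv P Q (TUE_Phi κ c γ p)‖ := by
      rw [norm_mul]
      exact mul_le_mul_of_nonneg_right hd1p (norm_nonneg _)
    linarith
  · intro h1 h2
    rw [norm_eq_zero] at h1 h2
    rw [ecx, h1, h2]
    simp
  · rw [enn]
    refine (norm_sub_le _ _).trans ?_
    rw [norm_mul, norm_mul, norm_mul, norm_pow, norm_pow, norm_pow, hκn]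

end Pool.Agent.P2
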