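import Pool.Agent.helper83.P2.SpecX

/-!
# Project p2, row XC1: closing on a cycle of length two
-/

set_option autoImplicit false

namespace Pool.Agent.P2

open Metric Set Filter Topology Finset

noncomputable section

theorem XC1_ball (p : ℂ × ℂ) (h1 : ‖p.1‖ ≤ 1 / 4) (h2 : ‖p.2‖ ≤ 1 / 4) : p ∈ ball (0 : ℂ × ℂ) 1 := by
  rw [mem_ball_zero_iff, Prod.norm_def]
  exact lt_of_le_of_lt (max_le h1 h2) (by norm_num)

theorem XC1_Qd (p : ℂ × ℂ) (h : p ∈ Qd) : ‖p.1‖ ≤ 1 / 4 ∧ ‖p.2‖ ≤ 1 / 4 := by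
  have h1 : ‖p‖ ≤ 1 / 4 := by
    have := mem_closedBall_zero_iff.1 h
    exact this
  exact ⟨(norm_fst_le p).trans h1, (norm_snd_le p).trans h1⟩

theorem XC1_iter {Ω : Type} (f : Ω → Ω) (U : Set Ω) (hU : ∀ x ∈ U, f x ∈ U) (n : ℕ) :
    ∀ x ∈ U, f^[n] x ∈ U := by
  induction n with
  | zero => exact fun x hx => hx
  | succ n ih =>
    intro x hx
    rw [Function.iterate_succ_apply]
    exact ih _ (hU x hx)

theorem XC1 (hXLP : XLP_stmt) (hXCH : XCH_stmt) (hXPE : XPE_stmt) : XC1_stmt := by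
  intro Ω _ f U P Q N N' g hf hfU hP hPQ hQP hN hg hgb hgU
  obtain ⟨X0, V0, hX0, hV0, h0⟩ := hPQ
  obtain ⟨X1, V1, hX1, hV1, h1⟩ := hQP
  have cX0 : Ctr X0 := hXLP X0 hX0 fun z hz => (h0 z hz).1
  have cV0 : Ctr V0 := hXLP V0 hV0 fun z hz => (h0 z hz).2.1
  have cX1 : Ctr X1 := hXLP X1 hX1 fun z hz => (h1 z hz).1
  have cV1 : Ctr V1 := hXLP V1 hV1 fun z hz => (h1 z hz).2.1
  have hfst : ∀ z ∈ ball (0 : ℂ × ℂ) 1, z.1 ∈ ball (0 : ℂ) 1 := by
    intro z hz
    rw [mem_ball_zero_iff] at hz ⊢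
    exact lt_of_le_of_lt (norm_fst_le z) hz
  have cg : Ctr (fun p => g p.1) := by
    refine hXLP _ ?_ ?_
    · exact hg.comp differentiable_fst.differentiableOn hfst
    · exact fun z hz => hgb z.1 (hfst z hz)
  set X : ℕ → ℂ × ℂ → ℂ := fun k => if k % 2 = 0 then X0 else X1 with hX
  set V : ℕ → ℂ × ℂ → ℂ := fun k => if k % 2 = 0 then V0 else V1 with hV
  have cX : ∀ k, Ctr (X k) := by
    intro k
    simp only [hX]
    split_ifs
    · exact cX0
    · exact cX1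
  have cV : ∀ k, Ctr (V k) := by
    intro k
    simp only [hV]
    split_ifs
    · exact cV0
    · exact cV1
  have pX : ∀ k, X (k + 2) = X k := by
    intro k
    simp only [hX, Nat.add_mod_right]
  have pV : ∀ k, V (k + 2) = V k := by
    intro k
    simp only [hV, Nat.add_mod_right]
  have eX0 : X 0 = X0 := rfl
  have eX1 : X 1 = X1 := rfl
  have eV0 : V 0 = V0 := rfl
  have eV1 : V 1 = V1 := rfl
  obtain ⟨z, hz, hz0, hz1, hz2⟩ := hXCH X V g cX cV cg
  obtain ⟨a, ha, b, hb, hlim, e1, e2, e3, e4⟩ := hXPE X V z cX cV pX pV hz hz1 hz2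
  rw [eX0] at e1
  rw [eV0] at e2
  rw [eX1] at e3
  rw [eV1] at e4
  have hpe : ∀ k, X (2 * k) = X0 ∧ V (2 * k) = V0 := by
    intro k
    have : 2 * k % 2 = 0 := Nat.mul_mod_right 2 k
    exact ⟨if_pos this, if_pos this⟩
  have hpo : ∀ k, X (2 * k + 1) = X1 ∧ V (2 * k + 1) = V1 := by
    intro k
    have : ¬ (2 * k + 1) % 2 = 0 := by omega
    exact ⟨if_neg this, if_neg this⟩
  have hU : ∀ x ∈ U, f x ∈ U := fun x hx => hfU ⟨x, subset_closure hx, rfl⟩
  have hpt : ∀ p ∈ Qd, ∀ q ∈ Qd, (p.1, q.2) ∈ ball (0 : ℂ × ℂ) 1 := by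
    intro p hp q hq
    exact XC1_ball _ (XC1_Qd p hp).1 (XC1_Qd q hq).2
  -- the steps of the chain
  have sE : ∀ k, f^[N] (P (z (2 * k))) = Q (z (2 * k + 1)) := by
    intro k
    have h3 := (h0 _ (hpt (z (2 * k + 1)) (hz _) (z (2 * k)) (hz _))).2.2
    have h4 := hz1 (2 * k)
    have h5 := hz2 (2 * k)
    rw [(hpe k).1] at h4
    rw [(hpe k).2] at h5
    rw [← h4, ← h5] at h3
    exact h3
  have sO : ∀ k, f^[N'] (Q (z (2 * k + 1))) = P (z (2 * (k + 1))) := by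
    intro k
    have e : 2 * (k + 1) = 2 * k + 1 + 1 := by ring
    rw [e]
    have h3 := (h1 _ (hpt (z (2 * k + 1 + 1)) (hz _) (z (2 * k + 1)) (hz _))).2.2
    have h4 := hz1 (2 * k + 1)
    have h5 := hz2 (2 * k + 1)
    rw [(hpo k).1] at h4
    rw [(hpo k).2] at h5
    rw [← h4, ← h5] at h3
    exact h3
  have hin : ∀ k, P (z (2 * k)) ∈ U := by
    intro k
    induction k with
    | zero =>
      have h3 := hgU (z 0).1 (by
        rw [mem_closedBall_zero_iff]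
        exact (XC1_Qd _ (hz 0)).1)
      rw [← hz0] at h3
      exact h3
    | succ k ih =>
      rw [← sO k, ← sE k]
      exact XC1_iter f U hU N' _ (XC1_iter f U hU N _ ih)
  have hcl : P a ∈ closure U := by
    have h3 : Tendsto (fun k => P (z (2 * k))) atTop (𝓝 (P a)) := by
      have h4 : Tendsto (fun k => z (2 * k)) atTop (𝓝[Qd] a) :=
        tendsto_nhdsWithin_iff.2 ⟨hlim, Eventually.of_forall fun k => hz _⟩
      exact (hP a ha).tendsto.comp h4
    exact mem_closure_of_tendsto h3 (Eventually.of_forall hin)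
  -- the periodic point
  have hE : f^[N] (P a) = Q b := by
    have h3 := (h0 _ (hpt b hb a ha)).2.2
    rw [← e1, ← e2] at h3
    exact h3
  have hO : f^[N'] (Q b) = P a := by
    have h3 := (h1 _ (hpt a ha b hb)).2.2
    rw [← e3, ← e4] at h3
    exact h3
  have hper : f^[N + N'] (P a) = P a := by
    rw [Nat.add_comm, Function.iterate_add_apply, hE, hO]
  refine ⟨P a, ?_, hper⟩
  obtain ⟨n, hn⟩ : ∃ n, N + N' = n + 1 := ⟨N + N' - 1, by omega⟩
  rw [← hper, hn, Function.iterate_succ_apply]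
  exact XC1_iter f U hU n _ (hfU ⟨P a, hcl, rfl⟩)

end

end Pool.Agent.P2
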