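import Pool.Agent.helper56.P2.SpecU

/-!
# P² theorem, row UREG: almost all values are regular, almost all folds are simple
-/

set_option autoImplicit false

namespace Pool.Agent.P2U

open MeasureTheory Set Filter Topology Metric Complex
open scoped ENNReal ContDiff

noncomputable section

theorem UREG_dir (f : ℂ × ℂ → ℂ) (v : ℂ × ℂ) (s : Set (ℂ × ℂ)) (hf : AnalyticOnNhd ℂ f s) :
    AnalyticOnNhd ℂ (fun p => fderiv ℂ f p v) s := by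
  have h1 : AnalyticOnNhd ℂ (fderiv ℂ f) s := hf.fderiv
  exact (ContinuousLinearMap.apply ℂ ℂ v).comp_analyticOnNhd h1

theorem UREG_c (P Q : ℂ × ℂ → ℂ) (v : ℂ × ℂ) (s : Set (ℂ × ℂ)) (hP : AnalyticOnNhd ℂ P s)
    (hQ : AnalyticOnNhd ℂ Q s) :
    AnalyticOnNhd ℂ (fun p => Q p * fderiv ℂ P p v - P p * fderiv ℂ Q p v) s :=
  (hQ.mul (UREG_dir P v s hP)).sub (hP.mul (UREG_dir Q v s hQ))

theorem UREG (hNUL : UNUL_stmt) (hSNG : USNG_stmt) (hJAC : UJAC_stmt) : UREG_stmt := by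
  intro P Q τ hol hex
  have hcx : AnalyticOnNhd ℂ (cx P Q) (TB 4 τ) := UREG_c P Q (1, 0) _ hol.hP hol.hQ
  have hcv : AnalyticOnNhd ℂ (cv P Q) (TB 4 τ) := UREG_c P Q (0, 1) _ hol.hP hol.hQ
  -- the common zeros of cx and cv
  have hnull : volume {p | p ∈ TB 4 τ ∧ cx P Q p = 0 ∧ cv P Q p = 0} = 0 := by
    obtain ⟨p, hp, h | h⟩ := hex
    · have hs : {p | p ∈ TB 4 τ ∧ cx P Q p = 0 ∧ cv P Q p = 0} ⊆ {p | p ∈ TB 4 τ ∧ cx P Q p = 0} :=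
        fun q hq => ⟨hq.1, hq.2.1⟩
      exact measure_mono_null hs (hNUL (cx P Q) 4 τ hcx ⟨p, hp, h⟩)
    · have hs : {p | p ∈ TB 4 τ ∧ cx P Q p = 0 ∧ cv P Q p = 0} ⊆ {p | p ∈ TB 4 τ ∧ cv P Q p = 0} :=
        fun q hq => ⟨hq.1, hq.2.2⟩
      exact measure_mono_null hs (hNUL (cv P Q) 4 τ hcv ⟨p, hp, h⟩)
  have h1 := hSNG P Q 4 τ hol hnull
  have h1' : ∀ᵐ ζ : ℂ, ζ ∉ {ζ : ℂ | ∃ p ∈ TB 4 τ, P p = ζ * Q p ∧ cx P Q p = 0 ∧ cv P Q p = 0} :=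
    measure_eq_zero_iff_ae_notMem.1 h1
  -- the image of the zeros of nn
  set F : ℂ × ℂ → ℂ × ℂ := fun q => (- cx P Q q / cv P Q q, P q / Q q) with hF
  set Z : Set (ℂ × ℂ) := {p | p ∈ TB 4 τ ∧ Q p ≠ 0 ∧ cv P Q p ≠ 0 ∧ nn P Q p = 0} with hZ
  have hA : ∀ p : ℂ × ℂ, ∃ A : ℂ × ℂ →L[ℝ] ℂ × ℂ, p ∈ Z → HasFDerivAt F A p ∧ A.det = 0 := by
    intro p
    by_cases hp : p ∈ Z
    · obtain ⟨A, hA1, hA2⟩ := (hJAC P Q 4 τ hol p hp.1 hp.2.1).1 hp.2.2.1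
      refine ⟨A, fun _ => ⟨hA1, ?_⟩⟩
      rw [hp.2.2.2, norm_zero, zero_pow two_ne_zero, zero_div] at hA2
      exact abs_eq_zero.1 hA2
    · exact ⟨0, fun h => absurd h hp⟩
  choose A hA using hA
  have hHaar : (volume : Measure (ℂ × ℂ)).IsAddHaarMeasure := by
    rw [Measure.volume_eq_prod]
    infer_instance
  have h2 : volume (F '' Z) = 0 :=
    addHaar_image_eq_zero_of_det_fderivWithin_eq_zero volume
      (fun p hp => (hA p hp).1.hasFDerivWithinAt) (fun p hp => (hA p hp).2)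
  have h3 : ∀ᵐ z : ℂ × ℂ, z ∉ F '' Z := measure_eq_zero_iff_ae_notMem.1 h2
  rw [Measure.volume_eq_prod] at h3
  have h4 : ∀ᵐ b : ℂ, ∀ᵐ ζ : ℂ, (b, ζ) ∉ F '' Z := Measure.ae_ae_of_ae_prod h3
  filter_upwards [h4] with b hb
  filter_upwards [hb, h1'] with ζ hbz hz p hp hPQ
  have hreg : cx P Q p ≠ 0 ∨ cv P Q p ≠ 0 := by
    by_contra hc
    rw [not_or, not_not, not_not] at hc
    exact hz ⟨p, hp, hPQ, hc.1, hc.2⟩
  refine ⟨hreg, fun hfold hn => hbz ?_⟩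
  have hQ0 : Q p ≠ 0 := by
    intro h0
    rw [h0, mul_zero] at hPQ
    rcases hol.ne p hp with h | h
    · exact h hPQ
    · exact h h0
  have hv0 : cv P Q p ≠ 0 := by
    intro h0
    rw [h0, mul_zero, add_zero] at hfold
    rcases hreg with h | h
    · exact h hfold
    · exact h h0
  refine ⟨p, ⟨hp, hQ0, hv0, hn⟩, ?_⟩
  have e1 : - cx P Q p / cv P Q p = b := by
    rw [div_eq_iff hv0]
    linear_combination -hfold
  have e2 : P p / Q p = ζ := by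
    rw [div_eq_iff hQ0]
    exact hPQ
  exact Prod.ext e1 e2

end

end Pool.Agent.P2U
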