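import Pool.Agent.helper15.P2.SpecB

/-!
# BOW: own level
-/

set_option autoImplicit false

open scoped ContDiff Topology ComplexConjugate ENNReal
open MeasureTheory Filter Set Metric

namespace Pool.Agent.P2B

open Pool.Agent.P2 Pool.Agent.P2I

theorem BOW_sph0 (P Q : ℂ → ℂ) (x : ℂ) : 0 ≤ sph P Q x :=
  div_nonneg (Complex.normSq_nonneg _) (sq_nonneg _)

theorem BOW_slice (P Q : ℂ × ℂ → ℂ) (v : ℂ) (hv : v ∈ ball (0 : ℂ) 1)
    (hc : ContinuousOn (fun p : ℂ × ℂ => sph (sl P p.2) (sl Q p.2) p.1) BI) :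
    ContinuousOn (fun x : ℂ => sph (sl P v) (sl Q v) x) (ball (0 : ℂ) 1) := by
  have h1 : ContinuousOn (fun x : ℂ => ((x, v) : ℂ × ℂ)) (ball (0 : ℂ) 1) :=
    (continuous_id.prodMk continuous_const).continuousOn
  have h2 : Set.MapsTo (fun x : ℂ => ((x, v) : ℂ × ℂ)) (ball (0 : ℂ) 1) BI := by
    intro x hx
    exact Set.mk_mem_prod hx hv
  have h3 : ContinuousOn ((fun p : ℂ × ℂ => sph (sl P p.2) (sl Q p.2) p.1) ∘ (fun x : ℂ => ((x, v) : ℂ × ℂ)))
      (ball (0 : ℂ) 1) := ContinuousOn.comp hc h1 h2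
  have h4 : ((fun p : ℂ × ℂ => sph (sl P p.2) (sl Q p.2) p.1) ∘ (fun x : ℂ => ((x, v) : ℂ × ℂ))) =
      (fun x : ℂ => sph (sl P v) (sl Q v) x) := by
    funext x
    simp only [Function.comp]
  rw [h4] at h3
  exact h3

theorem BOW_four (P Q : ℂ × ℂ → ℂ) (v : ℂ) (hv : v ∈ ball (0 : ℂ) 1)
    (hc : ContinuousOn (fun p : ℂ × ℂ => sph (sl P p.2) (sl Q p.2) p.1) BI)
    (h4 : 4 ≤ ∫⁻ x in ball (0 : ℂ) (1 / 2), ENNReal.ofReal (sph (sl P v) (sl Q v) x)) :
    4 ≤ ∫ x in ball (0 : ℂ) (1 / 2), sph (sl P v) (sl Q v) x := by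
  have hcl : ContinuousOn (fun x : ℂ => sph (sl P v) (sl Q v) x) (closedBall (0 : ℂ) (1 / 2)) :=
    (BOW_slice P Q v hv hc).mono (closedBall_subset_ball (by norm_num))
  have hi : IntegrableOn (fun x : ℂ => sph (sl P v) (sl Q v) x) (ball (0 : ℂ) (1 / 2)) :=
    (hcl.integrableOn_compact (isCompact_closedBall _ _)).mono_set ball_subset_closedBall
  have h5 := ofReal_integral_eq_lintegral_ofReal hi (Eventually.of_forall (fun x => BOW_sph0 _ _ x))
  rw [← h5] at h4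
  have h6 : ENNReal.ofReal 4 ≤ ENNReal.ofReal (∫ x in ball (0 : ℂ) (1 / 2), sph (sl P v) (sl Q v) x) := by
    have : ENNReal.ofReal 4 = 4 := by norm_num
    rw [this]; exact h4
  have h7 : 0 < ∫ x in ball (0 : ℂ) (1 / 2), sph (sl P v) (sl Q v) x := by
    by_contra hn
    rw [ENNReal.ofReal_of_nonpos (not_lt.mp hn)] at h6
    have : ENNReal.ofReal 4 = 4 := by norm_num
    rw [this] at h6
    simp at h6
  exact (ENNReal.ofReal_le_ofReal_iff h7.le).mp h6

theorem BOW (hBSM : BSM_stmt) (hBJL : BJL_stmt) (hBLC : BLC_stmt) (hBHA : BHA_stmt) (hBSL : BSL_stmt) : BOW_stmt := by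
  obtain ⟨C1, hC1, hLC⟩ := hBLC
  refine ⟨100 * C1, by positivity, ?_⟩
  intro P Q E κ hND hκ hκ1
  have hE : 1 ≤ E := hND.hE
  obtain ⟨A, Ξ, hAm, hAiff, hΞ, hΞc, hcv⟩ := hBSM P Q E hND
  have h0mem : (0 : ℂ) ∈ ball (0 : ℂ) 1 := mem_ball_self one_pos
  have hcont := (hBSL P Q E hND 0 h0mem).2.2.2
  have hAball : A ⊆ ball (0 : ℂ) (1 / 2) := fun x hx => ((hAiff x).mp hx).1
  have hball1 : ball (0 : ℂ) (1 / 2) ⊆ ball (0 : ℂ) 1 := ball_subset_ball (by norm_num)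
  have hBadA : {x0 : ℂ | x0 ∈ ball (0 : ℂ) (1 / 2) ∧ (∃ X : ℂ → ℂ, Sht P Q x0 X) ∧
      ¬ ∃ Y : ℂ × ℂ → ℂ, Band P Q (ball 0 1) (κ / 4) (1 / 4) x0 Y} ⊆ A :=
    fun x hx => (hAiff x).mpr ⟨hx.1, hx.2.1⟩
  have hK0 : 0 ≤ 100 * C1 * E * κ ^ 2 := by positivity
  by_cases hcase : ∫⁻ x0 in A, ENNReal.ofReal (sph (sl P 0) (sl Q 0) x0) ≤ 4
  · refine (lintegral_mono_set hBadA).trans (hcase.trans ?_)
    have : (4 : ℝ≥0∞) = ENNReal.ofReal 4 := by norm_num
    rw [this]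
    exact ENNReal.ofReal_le_ofReal (by linarith)
  · have hcase' := (not_le.mp hcase).le
    have h4 : ∀ v ∈ ball (0 : ℂ) 1, 4 ≤ ∫ x in ball (0 : ℂ) (1 / 2), sph (sl P v) (sl Q v) x := by
      intro v hv
      refine BOW_four P Q v hv hcont ?_
      have := hcv v hv (fun _ => 1) measurable_const
      simp only [mul_one] at this
      exact hcase'.trans this
    -- the functions
    have hRm := (hBJL P Q E hND).2
    set R : ℂ × ℂ → ℝ := fun p => (BI).indicator (fun p : ℂ × ℂ => rh (sl P p.2) (sl Q p.2) p.1) p with hR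
    have hLm : Measurable (fun p : ℂ × ℂ => ENNReal.ofReal (Real.log (κ / R p))) :=
      (Real.measurable_log.comp (measurable_const.div hRm)).ennreal_ofReal
    set L : ℂ × ℂ → ℝ≥0∞ := fun p => ENNReal.ofReal (Real.log (κ / R p)) with hL
    have hLBI : ∀ p ∈ BI, L p = ENNReal.ofReal (Real.log (κ / rh (sl P p.2) (sl Q p.2) p.1)) := by
      intro p hp
      simp only [hL, hR]
      rw [Set.indicator_of_mem hp]
    have hABm : MeasurableSet (A ×ˢ ball (0 : ℂ) 1) := hAm.prod measurableSet_ball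
    set Ξ' : ℂ × ℂ → ℂ := (A ×ˢ ball (0 : ℂ) 1).indicator Ξ with hΞ'
    have hΞ'm : Measurable Ξ' := by
      classical
      have := hΞc.measurable_piecewise (g := fun _ => (0 : ℂ)) continuousOn_const hABm
      rw [hΞ']
      have e : (A ×ˢ ball (0 : ℂ) 1).piecewise Ξ (fun _ => (0 : ℂ)) = (A ×ˢ ball (0 : ℂ) 1).indicator Ξ :=
        Set.piecewise_eq_indicator
      rw [← e]; exact this
    have hΞ'eq : ∀ x0 ∈ A, ∀ v ∈ ball (0 : ℂ) 1, Ξ' (x0, v) = Ξ (x0, v) := by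
      intro x0 hx0 v hv
      exact Set.indicator_of_mem (show (x0, v) ∈ A ×ˢ ball (0 : ℂ) 1 from ⟨hx0, hv⟩) Ξ
    set s0 : ℂ → ℝ := (ball (0 : ℂ) 1).indicator (fun x => sph (sl P 0) (sl Q 0) x) with hs0
    have hs0m : Measurable s0 := by
      classical
      have := (BOW_slice P Q 0 h0mem hcont).measurable_piecewise (g := fun _ => (0 : ℝ)) continuousOn_const
        measurableSet_ball
      have e : (ball (0 : ℂ) 1).piecewise (fun x => sph (sl P 0) (sl Q 0) x) (fun _ => (0 : ℝ)) = s0 :=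
        Set.piecewise_eq_indicator
      rw [← e]; exact this
    have hs0eq : ∀ x ∈ ball (0 : ℂ) (1 / 2), s0 x = sph (sl P 0) (sl Q 0) x := fun x hx =>
      Set.indicator_of_mem (hball1 hx) _
    have hGm : Measurable (fun p : ℂ × ℂ => L (Ξ' p, p.2)) := hLm.comp (hΞ'm.prodMk measurable_snd)
    have hφm : Measurable (fun x0 : ℂ => ∫⁻ v in ball (0 : ℂ) 1, L (Ξ' (x0, v), v)) :=
      Measurable.lintegral_prod_right' (f := fun p : ℂ × ℂ => L (Ξ' p, p.2)) hGm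
    set φ : ℂ → ℝ≥0∞ := fun x0 => ∫⁻ v in ball (0 : ℂ) 1, L (Ξ' (x0, v), v) with hφ
    -- each slice
    have hsl : ∀ v ∈ ball (0 : ℂ) 1, ∫⁻ x0 in A, ENNReal.ofReal (s0 x0) * L (Ξ' (x0, v), v) ≤
        ENNReal.ofReal (C1 * E * κ ^ 2) := by
      intro v hv
      have h1 : ∫⁻ x0 in A, ENNReal.ofReal (s0 x0) * L (Ξ' (x0, v), v) =
          ∫⁻ x0 in A, ENNReal.ofReal (sph (sl P 0) (sl Q 0) x0) * (fun x => L (x, v)) (Ξ (x0, v)) := by
        refine setLIntegral_congr_fun hAm (fun x0 hx0 => ?_)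
        simp only [hΞ'eq x0 hx0 v hv, hs0eq x0 (hAball hx0)]
      have h2 := hcv v hv (fun x => L (x, v)) (hLm.comp (measurable_id.prodMk measurable_const))
      have h3 : ∫⁻ x in ball (0 : ℂ) (1 / 2), ENNReal.ofReal (sph (sl P v) (sl Q v) x) * (fun x => L (x, v)) x =
          ∫⁻ x in ball (0 : ℂ) (1 / 2), ENNReal.ofReal (sph (sl P v) (sl Q v) x) *
            ENNReal.ofReal (Real.log (κ / rh (sl P v) (sl Q v) x)) := by
        refine setLIntegral_congr_fun measurableSet_ball (fun x hx => ?_)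
        simp only [hLBI (x, v) ⟨hball1 hx, hv⟩]
      rw [h1]
      refine h2.trans ?_
      rw [h3]
      exact hLC P Q E κ hND hκ hκ1 v hv (h4 v hv)
    -- Tonelli
    have hTon : ∫⁻ x0 in A, ENNReal.ofReal (s0 x0) * φ x0 ≤ ENNReal.ofReal (C1 * E * κ ^ 2) * ENNReal.ofReal Real.pi := by
      have h1 : ∫⁻ x0 in A, ENNReal.ofReal (s0 x0) * φ x0 =
          ∫⁻ x0 in A, ∫⁻ v in ball (0 : ℂ) 1, ENNReal.ofReal (s0 x0) * L (Ξ' (x0, v), v) := by
        refine lintegral_congr (fun x0 => ?_)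
        rw [hφ]
        exact (lintegral_const_mul _ (hGm.comp measurable_prodMk_left)).symm
      rw [h1, lintegral_lintegral_swap]
      · calc ∫⁻ v in ball (0 : ℂ) 1, ∫⁻ x0 in A, ENNReal.ofReal (s0 x0) * L (Ξ' (x0, v), v)
            ≤ ∫⁻ _v in ball (0 : ℂ) 1, ENNReal.ofReal (C1 * E * κ ^ 2) := by
              refine setLIntegral_mono measurable_const (fun v hv => hsl v hv)
          _ = ENNReal.ofReal (C1 * E * κ ^ 2) * ENNReal.ofReal Real.pi := by
              rw [setLIntegral_const, Complex.volume_ball]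
              congr 1
              rw [ENNReal.ofReal_one, one_pow, one_mul]
              rw [ENNReal.ofReal, Real.toNNReal_of_nonneg Real.pi_pos.le]
              rfl
      · exact ((hs0m.comp measurable_fst).ennreal_ofReal.mul hGm).aemeasurable
    -- Markov
    set B : Set ℂ := A ∩ {x0 | ENNReal.ofReal (Real.pi / 100) < φ x0} with hB
    have hBm : MeasurableSet B := hAm.inter (measurableSet_lt measurable_const hφm)
    have hBadB : {x0 : ℂ | x0 ∈ ball (0 : ℂ) (1 / 2) ∧ (∃ X : ℂ → ℂ, Sht P Q x0 X) ∧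
        ¬ ∃ Y : ℂ × ℂ → ℂ, Band P Q (ball 0 1) (κ / 4) (1 / 4) x0 Y} ⊆ B := by
      intro x0 hx0
      refine ⟨hBadA hx0, ?_⟩
      by_contra hn
      obtain ⟨hxb, ⟨X, hX⟩, hno⟩ := hx0
      apply hno
      refine hBHA P Q E κ x0 X hND hκ hκ1 hX ?_
      have hn' : φ x0 ≤ ENNReal.ofReal (Real.pi / 100) := not_lt.mp hn
      refine le_trans (le_of_eq ?_) hn'
      rw [hφ]
      refine setLIntegral_congr_fun measurableSet_ball (fun v hv => ?_)
      have hxA : x0 ∈ A := (hAiff x0).mpr ⟨hxb, X, hX⟩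
      have e1 : Ξ' (x0, v) = X v := by rw [hΞ'eq x0 hxA v hv, hΞ x0 hxA X hX v hv]
      simp only [e1]
      rw [hLBI (X v, v) ⟨hball1 (hX.2.2 v hv).1, hv⟩]
    have hπ : ENNReal.ofReal (Real.pi / 100) * ∫⁻ x0 in B, ENNReal.ofReal (s0 x0) ≤
        ENNReal.ofReal (Real.pi / 100) * ENNReal.ofReal (100 * C1 * E * κ ^ 2) := by
      calc ENNReal.ofReal (Real.pi / 100) * ∫⁻ x0 in B, ENNReal.ofReal (s0 x0)
          = ∫⁻ x0 in B, ENNReal.ofReal (Real.pi / 100) * ENNReal.ofReal (s0 x0) :=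
            (lintegral_const_mul _ hs0m.ennreal_ofReal).symm
        _ ≤ ∫⁻ x0 in B, ENNReal.ofReal (s0 x0) * φ x0 := by
            refine setLIntegral_mono (hs0m.ennreal_ofReal.mul hφm) (fun x hx => ?_)
            rw [mul_comm]
            exact mul_le_mul' le_rfl (le_of_lt hx.2)
        _ ≤ ∫⁻ x0 in A, ENNReal.ofReal (s0 x0) * φ x0 := lintegral_mono_set Set.inter_subset_left
        _ ≤ ENNReal.ofReal (C1 * E * κ ^ 2) * ENNReal.ofReal Real.pi := hTon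
        _ = ENNReal.ofReal (Real.pi / 100) * ENNReal.ofReal (100 * C1 * E * κ ^ 2) := by
            rw [← ENNReal.ofReal_mul (by positivity), ← ENNReal.ofReal_mul (by positivity)]
            congr 1; ring
    have hπ0 : ENNReal.ofReal (Real.pi / 100) ≠ 0 := by
      rw [ENNReal.ofReal_ne_zero_iff]
      positivity
    have hfin : ∫⁻ x0 in B, ENNReal.ofReal (s0 x0) ≤ ENNReal.ofReal (100 * C1 * E * κ ^ 2) :=
      (ENNReal.mul_le_mul_iff_right hπ0 ENNReal.ofReal_ne_top).mp hπ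
    calc ∫⁻ x0 in {x0 : ℂ | x0 ∈ ball (0 : ℂ) (1 / 2) ∧ (∃ X : ℂ → ℂ, Sht P Q x0 X) ∧
          ¬ ∃ Y : ℂ × ℂ → ℂ, Band P Q (ball 0 1) (κ / 4) (1 / 4) x0 Y}, ENNReal.ofReal (sph (sl P 0) (sl Q 0) x0)
        ≤ ∫⁻ x0 in B, ENNReal.ofReal (sph (sl P 0) (sl Q 0) x0) := lintegral_mono_set hBadB
      _ = ∫⁻ x0 in B, ENNReal.ofReal (s0 x0) := by
          refine setLIntegral_congr_fun hBm (fun x hx => ?_)
          simp only [hs0eq x (hAball hx.1)]
      _ ≤ ENNReal.ofReal (100 * C1 * E * κ ^ 2) := hfin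
      _ ≤ ENNReal.ofReal (100 * C1 * E * κ ^ 2 + 4) := ENNReal.ofReal_le_ofReal (by linarith)

end Pool.Agent.P2B
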